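import Pool.Agent.H365.TF.Stm

/-!
# NT1: matrices of finite order over group rings (project TF of helper365, by helper806)
-/

set_option autoImplicit false

namespace Pool.Agent.H365.TF

noncomputable section

namespace NT1

variable (ℓ : ℕ) [Fact ℓ.Prime] {H : Type} [Group H] (N M : Subgroup H) [N.Normal] [M.Normal]

/-- the map between the two quotients -/
def qm (h : M ≤ N) : (H ⧸ M) →* (H ⧸ N) := QuotientGroup.map M N (MonoidHom.id H) h

/-- the map between the two group rings -/
def pm (h : M ≤ N) : MonoidAlgebra (ZMod ℓ) (H ⧸ M) →+* MonoidAlgebra (ZMod ℓ) (H ⧸ N) :=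
  MonoidAlgebra.mapDomainRingHom (ZMod ℓ) (qm N M h)

lemma pm_single (h : M ≤ N) (q : H ⧸ M) (a : ZMod ℓ) :
    pm ℓ N M h (MonoidAlgebra.single q a) = MonoidAlgebra.single (qm N M h q) a := by
  simp [pm]

lemma pm_red (h : M ≤ N) : (pm ℓ N M h).comp (red ℓ M) = red ℓ N := by
  refine MonoidAlgebra.ringHom_ext (fun r => ?_) (fun m => ?_)
  · simp [pm, red, qm]
  · simp only [pm, red, qm, RingHom.comp_apply, MonoidAlgebra.mapRingHom_single, map_one,
      MonoidAlgebra.mapDomainRingHom_apply, MonoidAlgebra.mapDomain_single]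
    rfl

/-- the group acting from the right -/
abbrev PP : Type := ↥N ⧸ M.subgroupOf N

/-- its embedding -/
def em : PP N M →* (H ⧸ M) :=
  QuotientGroup.map (M.subgroupOf N) M N.subtype (fun _ hx => hx)

/-- the action from the right -/
def ac (ι : Type) : PP N M →* Module.End (ZMod ℓ) (ι → MonoidAlgebra (ZMod ℓ) (H ⧸ M)) where
  toFun p :=
    { toFun := fun x i => x i * MonoidAlgebra.single (em N M p)⁻¹ 1
      map_add' := fun x y => by
        funext i
        simp [add_mul]
      map_smul' := fun a x => by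
        funext i
        simp }
  map_one' := by
    refine LinearMap.ext fun x => ?_
    funext i
    show x i * MonoidAlgebra.single (em N M 1)⁻¹ 1 = x i
    rw [map_one, inv_one, ← MonoidAlgebra.one_def, mul_one]
  map_mul' p q := by
    refine LinearMap.ext fun x => ?_
    funext i
    show x i * MonoidAlgebra.single (em N M (p * q))⁻¹ 1 =
      (x i * MonoidAlgebra.single (em N M q)⁻¹ 1) * MonoidAlgebra.single (em N M p)⁻¹ 1
    rw [map_mul, mul_inv_rev, mul_assoc, MonoidAlgebra.single_mul_single, one_mul]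

omit [N.Normal] in
lemma ac_apply (ι : Type) (p : PP N M) (x : ι → MonoidAlgebra (ZMod ℓ) (H ⧸ M)) (i : ι) :
    ac ℓ N M ι p x i = x i * MonoidAlgebra.single (em N M p)⁻¹ 1 := rfl

/-- the matrix acting from the left -/
def lm {ι : Type} [Fintype ι] (A : Matrix ι ι (MonoidAlgebra (ZMod ℓ) (H ⧸ M))) :
    Module.End (ZMod ℓ) (ι → MonoidAlgebra (ZMod ℓ) (H ⧸ M)) where
  toFun x := A.mulVec x
  map_add' _ _ := Matrix.mulVec_add _ _ _
  map_smul' _ _ := Matrix.mulVec_smul _ _ _

lemma lm_pow {ι : Type} [Fintype ι] [DecidableEq ι]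
    (A : Matrix ι ι (MonoidAlgebra (ZMod ℓ) (H ⧸ M))) (r : ℕ) :
    lm ℓ M A ^ r = lm ℓ M (A ^ r) := by
  induction r with
  | zero =>
    refine LinearMap.ext fun x => ?_
    show x = (A ^ 0).mulVec x
    rw [pow_zero, Matrix.one_mulVec]
  | succ r ih =>
    rw [pow_succ, ih]
    refine LinearMap.ext fun x => ?_
    show (A ^ r).mulVec (A.mulVec x) = (A ^ (r + 1)).mulVec x
    rw [Matrix.mulVec_mulVec, ← pow_succ]

/-- the span of the differences -/
def W (ι : Type) : Submodule (ZMod ℓ) (ι → MonoidAlgebra (ZMod ℓ) (H ⧸ M)) :=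
  Submodule.span (ZMod ℓ) {z | ∃ (p : PP N M) (y : ι → MonoidAlgebra (ZMod ℓ) (H ⧸ M)),
    z = ac ℓ N M ι p y - y}

lemma ker_mem (h : M ≤ N) (ι : Type) [DecidableEq ι] (i : ι)
    (y : MonoidAlgebra (ZMod ℓ) (H ⧸ M)) (hy : pm ℓ N M h y = 0) :
    (Pi.single i y : ι → MonoidAlgebra (ZMod ℓ) (H ⧸ M)) ∈ W ℓ N M ι := by
  obtain ⟨s, hs⟩ : ∃ s : (H ⧸ N) → (H ⧸ M), ∀ q, qm N M h (s q) = q := by
    have h1 : Function.Surjective (qm N M h) := by
      intro q
      obtain ⟨x, rfl⟩ := QuotientGroup.mk_surjective q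
      exact ⟨QuotientGroup.mk x, rfl⟩
    exact ⟨Function.surjInv h1, Function.surjInv_eq h1⟩
  have key : ∀ y : MonoidAlgebra (ZMod ℓ) (H ⧸ M),
      (Pi.single i (y - MonoidAlgebra.mapDomain s (pm ℓ N M h y)) :
        ι → MonoidAlgebra (ZMod ℓ) (H ⧸ M)) ∈ W ℓ N M ι := by
    intro y
    induction y using MonoidAlgebra.induction_linear with
    | zero => simp
    | add x y hx hy =>
      have h1 : x + y - MonoidAlgebra.mapDomain s (pm ℓ N M h (x + y)) =
          (x - MonoidAlgebra.mapDomain s (pm ℓ N M h x)) +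
            (y - MonoidAlgebra.mapDomain s (pm ℓ N M h y)) := by
        rw [map_add, MonoidAlgebra.mapDomain_add]
        abel
      rw [h1, Pi.single_add]
      exact add_mem hx hy
    | single q a =>
      rw [pm_single, MonoidAlgebra.mapDomain_single]
      obtain ⟨q', hq'⟩ : ∃ q', q' = s (qm N M h q) := ⟨_, rfl⟩
      have h2 : qm N M h q' = qm N M h q := by rw [hq', hs]
      obtain ⟨p, hp⟩ : ∃ p : PP N M, em N M p = q⁻¹ * q' := by
        obtain ⟨u, rfl⟩ := QuotientGroup.mk_surjective q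
        obtain ⟨v, hv⟩ := QuotientGroup.mk_surjective q'
        rw [← hv] at h2 ⊢
        have h3 : (QuotientGroup.mk v : H ⧸ N) = QuotientGroup.mk u := h2
        have h4 : u⁻¹ * v ∈ N := QuotientGroup.eq.1 h3.symm
        exact ⟨QuotientGroup.mk ⟨u⁻¹ * v, h4⟩, rfl⟩
      refine Submodule.subset_span ⟨p, Pi.single i (MonoidAlgebra.single q' a), ?_⟩
      rw [← hq']
      funext j
      rw [Pi.sub_apply, ac_apply]
      by_cases hj : j = i
      · subst hj
        rw [Pi.single_eq_same, Pi.single_eq_same, MonoidAlgebra.single_mul_single, hp, mul_one]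
        congr 2
        group
      · rw [Pi.single_eq_of_ne hj, Pi.single_eq_of_ne hj, zero_mul, sub_zero]
  have h1 := key y
  rwa [hy, MonoidAlgebra.mapDomain_zero, sub_zero] at h1

lemma mem_of_ker (h : M ≤ N) (ι : Type) [Fintype ι] [DecidableEq ι]
    (y : ι → MonoidAlgebra (ZMod ℓ) (H ⧸ M)) (hy : ∀ i, pm ℓ N M h (y i) = 0) :
    y ∈ W ℓ N M ι := by
  rw [← Finset.univ_sum_single y]
  exact Submodule.sum_mem _ fun i _ => ker_mem ℓ N M h ι i (y i) (hy i)

end NT1

theorem t_NT1 (hcop : S_COP) : S_NT1 := by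
  intro ℓ _ H _ N M _ _ _ hMN hidx ι _ _ g r hr hg hgN
  have : Finite (H ⧸ M) := inferInstance
  have : Finite (MonoidAlgebra (ZMod ℓ) (H ⧸ M)) :=
    Finite.of_injective (fun y => (y.coeff : H ⧸ M → ZMod ℓ)) fun y z hyz =>
      MonoidAlgebra.coeff_injective (DFunLike.coe_injective hyz)
  have : Finite (NT1.PP N M) := by
    have h1 : Function.Injective (NT1.em N M) := by
      rw [injective_iff_map_eq_one]
      intro a ha
      obtain ⟨x, rfl⟩ := QuotientGroup.mk_surjective a
      have h2 : (QuotientGroup.mk (x : H) : H ⧸ M) = 1 := ha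
      rw [QuotientGroup.eq_one_iff] at h2
      exact (QuotientGroup.eq_one_iff x).2 h2
    exact Finite.of_injective _ h1
  have hP : IsPGroup ℓ (NT1.PP N M) := by
    obtain ⟨k, hk⟩ := hidx
    exact IsPGroup.of_card (n := k) hk
  obtain ⟨A, hA⟩ : ∃ A, A = g.map (red ℓ M) := ⟨_, rfl⟩
  have hA1 : A ^ r = 1 := by
    have h1 : A = (red ℓ M).mapMatrix g := hA
    rw [h1, ← map_pow, hg, map_one]
  have hA2 : ∀ i j, NT1.pm ℓ N M hMN (A i j - (1 : Matrix ι ι _) i j) = 0 := by
    intro i j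
    rw [map_sub]
    have h1 : NT1.pm ℓ N M hMN (A i j) = (1 : Matrix ι ι _) i j := by
      rw [← hgN, hA]
      show ((NT1.pm ℓ N M hMN).comp (red ℓ M)) (g i j) = red ℓ N (g i j)
      rw [NT1.pm_red]
    rw [h1, Matrix.one_apply, Matrix.one_apply]
    split_ifs
    · rw [map_one, sub_self]
    · rw [map_zero, sub_self]
  have h1 := hcop ℓ (ι → MonoidAlgebra (ZMod ℓ) (H ⧸ M)) (NT1.PP N M) hP (NT1.ac ℓ N M ι)
    (NT1.lm ℓ M A) r hr (by
      rw [NT1.lm_pow, hA1]
      refine LinearMap.ext fun x => ?_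
      exact Matrix.one_mulVec x) (by
      intro p
      refine LinearMap.ext fun x => ?_
      funext i
      show ∑ j, A i j * (x j * _) = (∑ j, A i j * x j) * _
      rw [Finset.sum_mul]
      exact Finset.sum_congr rfl fun j _ => (mul_assoc _ _ _).symm) (by
      intro x
      refine NT1.mem_of_ker ℓ N M hMN ι _ fun i => ?_
      have h2 : (NT1.lm ℓ M A x - x) i = ∑ j, (A i j - (1 : Matrix ι ι _) i j) * x j := by
        have h3 : x i = ∑ j, (1 : Matrix ι ι (MonoidAlgebra (ZMod ℓ) (H ⧸ M))) i j * x j := by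
          have h4 := congrFun (Matrix.one_mulVec x) i
          exact h4.symm
        rw [Pi.sub_apply, h3]
        show (∑ j, A i j * x j) - _ = _
        rw [← Finset.sum_sub_distrib]
        exact Finset.sum_congr rfl fun j _ => (sub_mul _ _ _).symm
      rw [h2, map_sum]
      refine Finset.sum_eq_zero fun j _ => ?_
      rw [map_mul, hA2, zero_mul])
  rw [← hA]
  ext1 i j
  have h2 : (NT1.lm ℓ M A) (Pi.single j 1) = Pi.single j 1 := by rw [h1]; rfl
  have h3 : A.mulVec (Pi.single j 1) = Pi.single j 1 := h2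
  rw [Matrix.mulVec_single_one] at h3
  have h4 := congrFun h3 i
  rw [Matrix.one_apply]
  rw [Pi.single_apply] at h4
  exact h4

end

end Pool.Agent.H365.TF
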